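import Pool.Agent.Helper69.TPF.St1
import Pool.Agent.Helper69.TPF.St2

/-!
# Project TPF, module ADP: adaptation to the first handlebody
-/

set_option autoImplicit false

open scoped commutatorElement

namespace Pool.Agent.Helper30.TPF

open Pool.Agent.Helper69.TPF
open Pool.Agent.Helper6.TS

private theorem rel_one_left {g : ℕ} {G : Type} [Group G] (z : Fin g × Bool → G)
    (h : ∀ s, z (s, false) = 1) : Helper69.TPF.Rel z = 1 := by
  unfold Helper69.TPF.Rel
  apply List.prod_eq_one
  intro x hx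
  rw [List.mem_map] at hx
  obtain ⟨i, -, rfl⟩ := hx
  rw [h i, commutatorElement_one_left]

theorem cADP (lfi : St_LFI) (frc : St_FRC) (gen : St_GEN) : St_ADP := by
  intro g m f hf v hv
  have hE : Finite (Lq (Surf g) m) := lfi (Surf g) m
  have hG : Finite (Lq (FreeGroup (Fin g)) m) := lfi (FreeGroup (Fin g)) m
  obtain ⟨π, hπ⟩ : ∃ π : Lq (Surf g) m →* Lq (FreeGroup (Fin g)) m, π = lmap f m := ⟨_, rfl⟩
  have hπmk : ∀ x : Surf g, π (QuotientGroup.mk x) = QuotientGroup.mk (f x) := by
    intro x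
    rw [hπ]
    rfl
  have hπs : Function.Surjective π := by
    intro x
    obtain ⟨z, rfl⟩ := QuotientGroup.mk_surjective x
    obtain ⟨w, rfl⟩ := hf z
    exact ⟨QuotientGroup.mk w, hπmk w⟩
  -- the tuples
  obtain ⟨z, hz⟩ : ∃ z : Fin g × Bool → FreeGroup (Fin g),
      z = fun i => if i.2 then v i.1 else 1 := ⟨_, rfl⟩
  obtain ⟨t, ht⟩ : ∃ t : Fin g × Bool → Lq (FreeGroup (Fin g)) m,
      t = fun i => QuotientGroup.mk (z i) := ⟨_, rfl⟩
  obtain ⟨y', hy'⟩ : ∃ y' : Fin g × Bool → Lq (Surf g) m,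
      y' = fun i => QuotientGroup.mk (PresentedGroup.of i : Surf g) := ⟨_, rfl⟩
  obtain ⟨z', hz'⟩ : ∃ z' : Fin g × Bool → FreeGroup (Fin g),
      z' = fun i => f (PresentedGroup.of i : Surf g) := ⟨_, rfl⟩
  obtain ⟨t', ht'⟩ : ∃ t' : Fin g × Bool → Lq (FreeGroup (Fin g)) m,
      t' = fun i => QuotientGroup.mk (z' i) := ⟨_, rfl⟩
  have hgt : Gen t := by
    have h1 := genMod_iff_gen.1 hv
    unfold Gen at h1 ⊢
    rw [← top_le_iff, ← h1]
    apply Subgroup.closure_mono
    rintro _ ⟨s, rfl⟩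
    refine ⟨(s, true), ?_⟩
    rw [ht, hz]
    rfl
  have hgy' : Gen y' := by
    have h1 : GenMod (lev (Surf g) m) fun i : Fin g × Bool => (PresentedGroup.of i : Surf g) := by
      apply genMod_of_le
      intro K hK _
      rw [← top_le_iff, ← PresentedGroup.closure_range_of, Subgroup.closure_le]
      rintro _ ⟨i, rfl⟩
      exact hK i
    rw [hy']
    exact genMod_iff_gen.1 h1
  have hπy : ∀ i, π (y' i) = t' i := by
    intro i
    rw [hy', ht', hz']
    exact hπmk _
  have hgt' : Gen t' := by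
    unfold Gen at hgy' ⊢
    have h1 : (Subgroup.closure (Set.range y')).map π = ⊤ := by
      rw [hgy', ← MonoidHom.range_eq_map, MonoidHom.range_eq_top]
      exact hπs
    rw [MonoidHom.map_closure, ← Set.range_comp] at h1
    have h2 : (⇑π ∘ y') = t' := funext hπy
    rw [h2] at h1
    exact h1
  have hRz : Helper69.TPF.Rel z = 1 := by
    apply rel_one_left
    intro s
    rw [hz]
    rfl
  have hRz' : Helper69.TPF.Rel z' = 1 := by
    have h1 := Rel_map f (fun i : Fin g × Bool => (PresentedGroup.of i : Surf g))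
    rw [Rel_gen, map_one] at h1
    rw [hz']
    exact h1.symm
  have hsame : SameClass (Nat.card (Lq (Surf g) m) * Nat.card (Lq (FreeGroup (Fin g)) m)) t t' := by
    intro Γ _ _ p hp hker _ s s' hs hs'
    have h1 : Helper69.TPF.Rel s = 1 := frc g (Nat.card Γ) (Fin g) Γ (Lq (FreeGroup (Fin g)) m) p hp hker le_rfl
      (QuotientGroup.mk' (lev (FreeGroup (Fin g)) m)) z (by rw [hRz]; exact Subgroup.one_mem _) s
      (by
        intro i
        rw [hs i, ht]
        rfl)
    have h2 : Helper69.TPF.Rel s' = 1 := frc g (Nat.card Γ) (Fin g) Γ (Lq (FreeGroup (Fin g)) m) p hp hker le_rfl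
      (QuotientGroup.mk' (lev (FreeGroup (Fin g)) m)) z' (by rw [hRz']; exact Subgroup.one_mem _) s'
      (by
        intro i
        rw [hs' i, ht']
        rfl)
    rw [h1, h2]
  have hRy' : Helper69.TPF.Rel y' = 1 := by
    have h1 := Rel_map (QuotientGroup.mk' (lev (Surf g) m))
      (fun i : Fin g × Bool => (PresentedGroup.of i : Surf g))
    rw [Rel_gen, map_one] at h1
    rw [hy']
    exact h1.symm
  obtain ⟨y, h1, h2, h3⟩ := gen (Lq (Surf g) m) (Lq (FreeGroup (Fin g)) m) π g t t' hgt hgt' hsame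
    1 y' hπy hRy' hgy'
  choose X hX using fun i => QuotientGroup.mk_surjective (y i)
  refine ⟨X, ?_, ?_, ?_⟩
  · rw [genMod_iff_gen]
    have h4 : (fun i => (QuotientGroup.mk (X i) : Lq (Surf g) m)) = y := funext hX
    rw [h4]
    exact h3
  · rw [← QuotientGroup.eq_one_iff]
    have h4 := Rel_map (QuotientGroup.mk' (lev (Surf g) m)) X
    have h5 : (fun i => QuotientGroup.mk' (lev (Surf g) m) (X i)) = y := funext hX
    rw [h5, h2] at h4
    exact h4
  · intro s
    constructor
    · rw [← QuotientGroup.eq_one_iff]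
      have h4 := h1 (s, false)
      rw [← hX, hπmk, ht, hz] at h4
      exact h4
    · rw [← QuotientGroup.eq_one_iff, QuotientGroup.mk_mul, QuotientGroup.mk_inv]
      have h4 := h1 (s, true)
      rw [← hX, hπmk, ht, hz] at h4
      have h5 : (QuotientGroup.mk (f (X (s, true))) : Lq (FreeGroup (Fin g)) m)
        = QuotientGroup.mk (v s) := h4
      rw [h5, mul_inv_cancel]

end Pool.Agent.Helper30.TPF
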